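import Mathlib
import Pool.Agent.Lib.helper8.Bnd

set_option autoImplicit false

namespace Pool.Agent.H.MP_287fcc_lc

open Pool.Agent.Lib.helper8

def cn (x y : ℕ) : ℕ := (842836299184567883585760 >>> (2 * ((x + 41 - y) % 41))) % 4

/-- The quartic residue colouring of the field with 41 elements, restricted to 40 of its points. -/
def col (x y : Fin 40) : Fin 4 := ⟨cn x y, Nat.mod_lt _ (by norm_num)⟩

theorem c1 : allLt 40 (fun x => allLt 40 fun y => cn x y == cn y x) = true := by decide +kernel

theorem c2 : allLt 40 (fun x => allLt 40 fun y => allLt 40 fun z =>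
    x == y || y == z || x == z || cn x y != cn y z || cn y z != cn x z) = true := by
  decide +kernel

theorem c3 : allLt 40 (fun x => allLt 40 fun y => x == y || allLt 4 fun j => allLt 4 fun k =>
    (j == cn x y && k == cn x y) ||
      anyLt 40 fun z => cn x z == j && cn z y == k && z != x && z != y) = true := by
  decide +kernel

theorem col_symm : ∀ x y, col x y = col y x := by
  intro x y
  have := c1
  simp only [allLt_iff, beq_iff_eq] at this
  exact Fin.ext (this x x.2 y y.2)

theorem col_used : ∀ i : Fin 4, ∃ x y, x ≠ y ∧ col x y = i := by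
  intro i
  fin_cases i
  · exact ⟨1, 0, by decide, by decide +kernel⟩
  · exact ⟨6, 0, by decide, by decide +kernel⟩
  · exact ⟨36, 0, by decide, by decide +kernel⟩
  · exact ⟨11, 0, by decide, by decide +kernel⟩

theorem col_tri : ∀ x y z, x ≠ y → y ≠ z → x ≠ z → ¬ (col x y = col y z ∧ col y z = col x z) := by
  rintro x y z hxy hyz hxz ⟨h1, h2⟩
  have := c2
  simp only [allLt_iff, Bool.or_eq_true, beq_iff_eq, bne_iff_ne] at this
  rcases this x x.2 y y.2 z z.2 with (((h | h) | h) | h) | h
  · exact hxy (Fin.ext h)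
  · exact hyz (Fin.ext h)
  · exact hxz (Fin.ext h)
  · exact h (congrArg Fin.val h1)
  · exact h (congrArg Fin.val h2)

theorem col_wit : ∀ x y, x ≠ y → ∀ j k : Fin 4, ¬ (j = col x y ∧ k = col x y) →
    ∃ z, z ≠ x ∧ z ≠ y ∧ col x z = j ∧ col z y = k := by
  intro x y hxy j k hjk
  have := c3
  simp only [allLt_iff, anyLt_iff, Bool.or_eq_true, Bool.and_eq_true, beq_iff_eq, bne_iff_ne] at this
  rcases this x x.2 y y.2 with h | h
  · exact absurd (Fin.ext h) hxy
  rcases h j j.2 k k.2 with h | ⟨z, hz, ⟨⟨h1, h2⟩, h3⟩, h4⟩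
  · exact absurd ⟨Fin.ext h.1, Fin.ext h.2⟩ hjk
  · exact ⟨⟨z, hz⟩, fun h => h3 (congrArg Fin.val h), fun h => h4 (congrArg Fin.val h),
      Fin.ext h1, Fin.ext h2⟩

theorem not_pp : ¬ IsPrimePow 40 := by
  rw [isPrimePow_iff_card_primeFactors_eq_one]
  have : Nat.primeFactors 40 = {2, 5} := by decide +kernel
  rw [this]; decide

end Pool.Agent.H.MP_287fcc_lc
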